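import Pool.Agent.Q195.L2.GME
import Pool.Agent.Q255.L2.Alm

/-!
# Project L2Q (helper255), job GMEQ: Gaussian moments with test functions for quadratic twists
-/

set_option autoImplicit false

namespace Pool.Agent.Q238.L2

open Filter Topology MeasureTheory Set
open Pool.Agent.Q255.IC Pool.Agent.Q255.IR Pool.Agent.Q255.EP Pool.Agent.Q255.L2 Pool.Agent.Q65.L2
open Pool.Agent.Q152.QT (gm)
open Pool.Agent.Q195.L2 (ph_cont ph_per coef_bd per_bd ibp)

theorem abs_jc (m n : ℕ) : |jc m n| ≤ 1 := by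
  unfold jc
  rcases jacobiSym.trichotomy (n : ℤ) m with h | h | h <;> rw [h] <;> simp

/-- from moments over intervals to test functions -/
theorem core {χ : ℕ → ℝ} (hχ : ∀ n, |χ n| ≤ 1) {T B : ℝ} {a : ℕ → ℝ}
    (hB : ∀ n : ℕ, 1 ≤ n → |a n| ≤ B * (n : ℝ) ^ 2) (b : Bool) (k : ℕ) {y₀ y₁ R L δ : ℝ} (hy₀ : 0 < y₀)
    (hy : y₀ ≤ y₁) (hR : 0 ≤ R) (hL : 0 ≤ L)
    (hG : ∀ y α β : ℝ, y₀ ≤ y → y ≤ y₁ → 0 ≤ α → α ≤ β → β ≤ 1 →
      |(∫ x in α..β, ph b χ T a x y ^ k) - (β - α) * (gm k *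
        √(∫ x in (0 : ℝ)..1, ph b (fun _ => 1) T a x y ^ 2) ^ k)| ≤ δ)
    {ψ : ℝ → ℝ → ℝ} (hψc : Continuous (fun z : ℝ × ℝ => ψ z.1 z.2))
    (hψL : ∀ x x' y, |ψ x y - ψ x' y| ≤ L * |x - x'|)
    (hψs : ∀ x y, ψ x y ≠ 0 → |x| ≤ R ∧ y₀ ≤ y ∧ y ≤ y₁) :
    |(∫ y in y₀..y₁, (∫ x in (-R)..R, ψ x y * ph b χ T a x y ^ k) / y ^ 2) -
      gm k * ∫ y in y₀..y₁, (∫ x in (-R)..R, ψ x y) *
        √(∫ x in (0 : ℝ)..1, ph b (fun _ => 1) T a x y ^ 2) ^ k / y ^ 2| ≤
      2 * L * (1 + R) * (R + 2) * δ / y₀ ^ 2 * (y₁ - y₀) := by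
  set K : ℝ := 2 * L * (1 + R) * (R + 2) with hK
  have hK0 : 0 ≤ K := by positivity
  have hδ0 : 0 ≤ δ := (abs_nonneg _).trans (hG y₀ 0 1 le_rfl hy le_rfl zero_le_one le_rfl)
  -- the functions
  set u : ℝ → ℝ → ℝ := fun x y => ph b χ T a x y with hu
  set v : ℝ → ℝ → ℝ := fun x y => ph b (fun _ => 1) T a x y with hv
  set S : ℝ → ℝ := fun y => √(∫ x in (0 : ℝ)..1, v x y ^ 2) ^ k with hS
  have huc : Continuous fun z : ℝ × ℝ => u z.2 (max z.1 y₀) := by
    have h2 := ph_cont (T := T) (a := a) (f := χ) b hy₀ hB hχ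
    exact h2.comp_continuous (f := fun z : ℝ × ℝ => (z.2, max z.1 y₀)) (by fun_prop)
      (fun z => show y₀ ≤ max z.1 y₀ from le_max_right _ _)
  have hvc : Continuous fun z : ℝ × ℝ => v z.2 (max z.1 y₀) := by
    have h2 := ph_cont (T := T) (a := a) (f := fun _ => (1 : ℝ)) b hy₀ hB
      (fun n => by rw [abs_one])
    exact h2.comp_continuous (f := fun z : ℝ × ℝ => (z.2, max z.1 y₀)) (by fun_prop)
      (fun z => show y₀ ≤ max z.1 y₀ from le_max_right _ _)
  have hmax : ∀ y ∈ Icc y₀ y₁, max y y₀ = y := fun y h => max_eq_left h.1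
  have hA : ContinuousOn (fun y => ∫ x in (-R)..R, ψ x y * u x y ^ k) (Icc y₀ y₁) := by
    have h2 : Continuous fun y => ∫ x in (-R)..R, ψ x y * u x (max y y₀) ^ k := by
      refine intervalIntegral.continuous_parametric_intervalIntegral_of_continuous' ?_ _ _
      have h3 : Continuous fun z : ℝ × ℝ => ψ z.2 z.1 :=
        hψc.comp (f := fun z : ℝ × ℝ => (z.2, z.1)) (by fun_prop)
      exact h3.mul (huc.pow k)
    refine h2.continuousOn.congr fun y hy => ?_
    simp only [hmax y hy]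
  have hS' : ContinuousOn S (Icc y₀ y₁) := by
    have h2 : Continuous fun y => √(∫ x in (0 : ℝ)..1, v x (max y y₀) ^ 2) ^ k := by
      refine (Continuous.pow ?_ k)
      refine Real.continuous_sqrt.comp ?_
      exact intervalIntegral.continuous_parametric_intervalIntegral_of_continuous' (hvc.pow 2) _ _
    refine h2.continuousOn.congr fun y hy => ?_
    simp only [hS, hmax y hy]
  have hψI : Continuous fun y => ∫ x in (-R)..R, ψ x y := by
    refine intervalIntegral.continuous_parametric_intervalIntegral_of_continuous' ?_ _ _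
    exact hψc.comp (f := fun z : ℝ × ℝ => (z.2, z.1)) (by fun_prop)
  have hinv : ContinuousOn (fun y : ℝ => (y ^ 2)⁻¹) (Icc y₀ y₁) := by
    refine ContinuousOn.inv₀ (Continuous.continuousOn (by fun_prop)) fun y hy => ?_
    have : 0 < y := hy₀.trans_le hy.1
    positivity
  have hI1 : IntervalIntegrable (fun y => (∫ x in (-R)..R, ψ x y * u x y ^ k) / y ^ 2)
      volume y₀ y₁ := by
    refine ContinuousOn.intervalIntegrable ?_
    rw [uIcc_of_le hy]
    simp only [div_eq_mul_inv]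
    exact hA.mul hinv
  have hI2 : IntervalIntegrable (fun y => (∫ x in (-R)..R, ψ x y) * S y / y ^ 2)
      volume y₀ y₁ := by
    refine ContinuousOn.intervalIntegrable ?_
    rw [uIcc_of_le hy]
    simp only [div_eq_mul_inv]
    exact (hψI.continuousOn.mul hS').mul hinv
  -- for fixed `y`
  have key : ∀ y ∈ Icc y₀ y₁, |(∫ x in (-R)..R, ψ x y * u x y ^ k) -
      gm k * ((∫ x in (-R)..R, ψ x y) * S y)| ≤ K * δ := by
    intro y hyI
    have huy : Continuous fun x => u x y := by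
      have h2 : Continuous fun x : ℝ => u x (max y y₀) :=
        huc.comp (f := fun x : ℝ => (y, x)) (by fun_prop)
      rwa [hmax y hyI] at h2
    have hψy : Continuous fun x => ψ x y := hψc.comp (f := fun x : ℝ => (x, y)) (by fun_prop)
    set F : ℝ → ℝ := fun x => u x y ^ k - gm k * S y with hFd
    have hFc : Continuous F := (huy.pow k).sub continuous_const
    have hFp : Function.Periodic F 1 := fun x => by
      have h2 := ph_per b χ T a y x
      simp only at h2
      simp only [hFd, hu, h2]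
    have hFi : ∀ α β : ℝ, 0 ≤ α → α ≤ β → β ≤ 1 → |∫ x in α..β, F x| ≤ δ := by
      intro α β h0 h2 h3
      have h4 := hG y α β hyI.1 hyI.2 h0 h2 h3
      have h5 : ∫ x in α..β, F x = (∫ x in α..β, u x y ^ k) - (β - α) * (gm k * S y) := by
        have hc1 : Continuous fun x => u x y ^ k := huy.pow k
        change (∫ x in α..β, (u x y ^ k - gm k * S y)) = _
        rw [intervalIntegral.integral_sub (hc1.intervalIntegrable _ _)
          (continuous_const.intervalIntegrable _ _), intervalIntegral.integral_const,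
          smul_eq_mul]
      rw [h5]
      exact h4
    have h2 := ibp hFc (g := fun x => ψ x y) (L := L) (M := (R + 2) * δ) hR
      (fun x x' => hψL x x' y) (fun x hx => (hψs x y hx).1)
      (fun x hx => (per_bd hFc hFp hFi x).trans
        (mul_le_mul_of_nonneg_right (by linarith) hδ0))
    have h3 : ∫ x in (-R)..R, ψ x y * F x = (∫ x in (-R)..R, ψ x y * u x y ^ k) -
        gm k * ((∫ x in (-R)..R, ψ x y) * S y) := by
      have h4 : ∀ x, ψ x y * F x = ψ x y * u x y ^ k - (gm k * S y) * ψ x y := fun x => by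
        simp only [hFd]
        ring
      have hc1 : Continuous fun x => ψ x y * u x y ^ k := hψy.mul (huy.pow k)
      have hc2 : Continuous fun x => (gm k * S y) * ψ x y := continuous_const.mul hψy
      simp only [h4]
      rw [intervalIntegral.integral_sub (hc1.intervalIntegrable _ _)
        (hc2.intervalIntegrable _ _), intervalIntegral.integral_const_mul]
      ring
    rw [h3] at h2
    refine h2.trans (le_of_eq ?_)
    rw [hK]
    ring
  -- integration over `y`
  have h2 : (∫ y in y₀..y₁, (∫ x in (-R)..R, ψ x y * u x y ^ k) / y ^ 2) -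
      gm k * (∫ y in y₀..y₁, (∫ x in (-R)..R, ψ x y) * S y / y ^ 2) =
      ∫ y in y₀..y₁, ((∫ x in (-R)..R, ψ x y * u x y ^ k) -
        gm k * ((∫ x in (-R)..R, ψ x y) * S y)) / y ^ 2 := by
    rw [← intervalIntegral.integral_const_mul, ← intervalIntegral.integral_sub hI1
      (hI2.const_mul _)]
    refine intervalIntegral.integral_congr fun y _ => ?_
    ring
  have h3 : |∫ y in y₀..y₁, ((∫ x in (-R)..R, ψ x y * u x y ^ k) -
        gm k * ((∫ x in (-R)..R, ψ x y) * S y)) / y ^ 2| ≤ K * δ / y₀ ^ 2 * (y₁ - y₀) := by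
    have h4 : ∀ y ∈ Set.uIoc y₀ y₁, ‖((∫ x in (-R)..R, ψ x y * u x y ^ k) -
        gm k * ((∫ x in (-R)..R, ψ x y) * S y)) / y ^ 2‖ ≤ K * δ / y₀ ^ 2 := by
      intro y hyy
      rw [uIoc_of_le hy] at hyy
      have hyp : 0 < y := hy₀.trans hyy.1
      rw [Real.norm_eq_abs, abs_div, abs_of_pos (by positivity : 0 < y ^ 2)]
      exact div_le_div₀ (by positivity) (key y ⟨hyy.1.le, hyy.2⟩) (by positivity)
        (pow_le_pow_left₀ hy₀.le hyy.1.le 2)
    have h5 := intervalIntegral.norm_integral_le_of_norm_le_const h4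
    rwa [Real.norm_eq_abs, abs_of_nonneg (by linarith : 0 ≤ y₁ - y₀)] at h5
  rw [h2]
  exact h3

theorem gmeq (h1 : S_GMDQ) (_ : S_SNQ) : S_GMEQ := by
  intro ι T a A hF hC k R y₀ y₁ hy₀ hy
  obtain ⟨r, c, C, hc, hC0, hG⟩ := h1 ι T a A hF hC y₀ y₁ k 1 1 hy₀ hy le_rfl
  have hyy : 0 ≤ y₁ - y₀ := by linarith
  refine ⟨r, c, 2 * (1 + |R|) * (|R| + 2) * C / y₀ ^ 2 * (y₁ - y₀), hc, by positivity,
    hG.mono ?_⟩
  intro J m hGm hr ψ L hψc hψb hψL hψs i b hJ1 hJ2
  have hL : 0 ≤ L := (abs_nonneg _).trans (hψb 0 0)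
  rcases lt_or_ge R 0 with hR | hR
  · -- no test functions
    have hz : ∀ x y, ψ x y = 0 := fun x y => by
      by_contra hne
      exact absurd ((abs_nonneg x).trans (hψs x y hne).1) (not_le.2 hR)
    simp only [hz, zero_mul, intervalIntegral.integral_zero, zero_div, mul_zero, sub_zero, abs_zero]
    positivity
  have hT : 1 ≤ T i := hF.1 i
  obtain ⟨B, hB⟩ := coef_bd hC i hT
  have hG2 : ∀ y α β : ℝ, y₀ ≤ y → y ≤ y₁ → 0 ≤ α → α ≤ β → β ≤ 1 →
      |(∫ x in α..β, ph b (jc m) (T i) (a i) x y ^ k) - (β - α) * (gm k *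
        √(∫ x in (0 : ℝ)..1, ph b (fun _ => 1) (T i) (a i) x y ^ 2) ^ k)| ≤
          C * (2 : ℝ) ^ (-(c * J)) := by
    intro y α β hy1 hy2 h0 h2 h3
    have h4 := hGm hr (fun _ => i) (fun _ => b) (fun _ => 1) (fun _ => 0) (fun _ => y) α β
      (fun _ => ⟨hJ1, by rw [pow_one]; exact hJ2⟩) (fun _ => by rw [abs_one])
      (fun _ => ⟨hy1, hy2⟩) h0 h2 h3
    simpa only [Finset.univ_unique, Finset.sum_singleton, one_mul, add_zero] using h4
  have h5 := core (abs_jc m) hB b k hy₀ hy hR hL hG2 hψc hψL hψs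
  refine h5.trans (le_of_eq ?_)
  rw [abs_of_nonneg hR]
  ring

end Pool.Agent.Q238.L2
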